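import Pool.Agent.H14.RG.Targets

/-!
Board reg_modules (MP_2697e3_an), row A_SFS: near each point of the submanifold the second
fundamental form is given by a smooth function.
-/

set_option autoImplicit false

namespace Pool.Agent.H66.RG

open MeasureTheory Metric Set Filter Topology Pool.Agent.H14.RG Pool.Agent.H87.SN
open scoped ContDiff RealInnerProductSpace

noncomputable section

/-- the second derivative of `F ∘ γ` at a point of the submanifold -/
theorem sfs_second {m c : ℕ} {N U : Set (E m)} {F : E m → E c} (hL : LocDef N U F)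
    {γ : ℝ → E m} (h1 : ContDiffAt ℝ 2 γ 0) (h2 : ∀ᶠ s in 𝓝 (0 : ℝ), γ s ∈ N)
    (h3 : γ 0 ∈ U) :
    fderiv ℝ (fderiv ℝ F) (γ 0) (deriv γ 0) (deriv γ 0) +
      fderiv ℝ F (γ 0) (deriv (deriv γ) 0) = 0 := by
  have hc : ContinuousAt γ 0 := h1.continuousAt
  have h4 : ∀ᶠ s in 𝓝 (0 : ℝ), γ s ∈ U := hc.eventually (hL.isOpen.mem_nhds h3)
  have h5 : ∀ᶠ s in 𝓝 (0 : ℝ), F (γ s) = 0 := by
    filter_upwards [h2, h4] with s ha hb
    exact (hL.zero _ hb).1 ha
  have h6 : ∀ᶠ s in 𝓝 (0 : ℝ), ContDiffAt ℝ 2 γ s := h1.eventually (by simp)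
  have hdF : ∀ q ∈ U, ContDiffAt ℝ ∞ F q := fun q hq =>
    (hL.smooth q hq).contDiffAt (hL.isOpen.mem_nhds hq)
  have h7 : ∀ᶠ s in 𝓝 (0 : ℝ), fderiv ℝ F (γ s) (deriv γ s) = 0 := by
    filter_upwards [h5.eventually_nhds, h4, h6] with s ha hb hcs
    have d1 : HasDerivAt γ (deriv γ s) s :=
      (hcs.differentiableAt (by simp)).hasDerivAt
    have d2 : HasFDerivAt F (fderiv ℝ F (γ s)) (γ s) :=
      ((hdF _ hb).differentiableAt (by simp)).hasFDerivAt
    have d3 : HasDerivAt (F ∘ γ) (fderiv ℝ F (γ s) (deriv γ s)) s := d2.comp_hasDerivAt s d1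
    have d4 : HasDerivAt (F ∘ γ) 0 s := by
      have d5 : HasDerivAt (fun _ : ℝ => (0 : E c)) 0 s := hasDerivAt_const s 0
      refine d5.congr_of_eventuallyEq ?_
      filter_upwards [ha] with t ht
      exact ht
    exact d3.unique d4
  have e1 : HasDerivAt γ (deriv γ 0) 0 := (h1.differentiableAt (by simp)).hasDerivAt
  have e2 : HasDerivAt (deriv γ) (deriv (deriv γ) 0) 0 := by
    have h8 : ContDiffAt ℝ 1 (deriv γ) 0 := by
      have h9 : ContDiffAt ℝ 1 (fderiv ℝ γ) 0 := h1.fderiv_right (by norm_num)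
      have h10 : (deriv γ) = fun s => fderiv ℝ γ s 1 := by
        funext s
        exact fderiv_apply_one_eq_deriv.symm
      rw [h10]
      exact h9.clm_apply contDiffAt_const
    exact (h8.differentiableAt (by simp)).hasDerivAt
  have e3 : HasFDerivAt (fderiv ℝ F) (fderiv ℝ (fderiv ℝ F) (γ 0)) (γ 0) := by
    have h8 : ContDiffAt ℝ ∞ (fderiv ℝ F) (γ 0) := (hdF _ h3).fderiv_right (by simp)
    exact (h8.differentiableAt (by simp)).hasFDerivAt
  have e4 : HasDerivAt (fun s => fderiv ℝ F (γ s)) (fderiv ℝ (fderiv ℝ F) (γ 0) (deriv γ 0)) 0 :=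
    e3.comp_hasDerivAt 0 e1
  have e5 := e4.clm_apply e2
  have e6 : HasDerivAt (fun s => fderiv ℝ F (γ s) (deriv γ s)) 0 0 := by
    have d5 : HasDerivAt (fun _ : ℝ => (0 : E c)) 0 0 := hasDerivAt_const 0 0
    refine d5.congr_of_eventuallyEq ?_
    filter_upwards [h7] with t ht
    exact ht
  exact e5.unique e6

/-- the second fundamental form in terms of the defining function -/
theorem sfs_eq (hTAE : T_TAE) (hTAK : T_TAK) {m c : ℕ} {N U : Set (E m)} {F : E m → E c}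
    {A : E m → E m →L[ℝ] E m →L[ℝ] E m} (hA : IsSFF N A)
    (hL : LocDef N U F) {R : E m → E c →L[ℝ] E m}
    (hR : ∀ q ∈ U, (∀ y, fderiv ℝ F q (R q y) = y) ∧
        ∀ y v, fderiv ℝ F q v = 0 → ⟪R q y, v⟫ = 0)
    (q : E m) (hqN : q ∈ N) (hqU : q ∈ U) (v : E m) (hv : IsTangent N q v) :
    A q v v = R q (fderiv ℝ (fderiv ℝ F) q v v) := by
  have hv' := hv
  obtain ⟨γ, h1, h2, h3, h4⟩ := hv'
  have hs := sfs_second hL h1 h2 (by rw [h3]; exact hqU)
  rw [h3, h4] at hs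
  obtain ⟨r1, r2⟩ := hR q hqU
  set X := deriv (deriv γ) 0 with hX
  set a := fderiv ℝ (fderiv ℝ F) q v v with ha
  have i1 : ∀ y, ⟪X + A q v v, R q y⟫ = 0 := by
    intro y
    have h := hA.curve γ h1 h2 (R q y) (by
      intro τ hτ
      rw [h3] at hτ
      exact r2 y τ (hTAE m c N U F hL q hqU τ hτ))
    rw [h3, h4] at h
    exact h
  have i2 : ∀ y, ⟪X + R q a, R q y⟫ = 0 := by
    intro y
    rw [real_inner_comm]
    refine r2 y _ ?_
    rw [map_add, r1, add_comm]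
    exact hs
  have i3 : ∀ y, ⟪A q v v - R q a, R q y⟫ = 0 := by
    intro y
    have h : A q v v - R q a = (X + A q v v) - (X + R q a) := by abel
    rw [h, inner_sub_left, i1, i2, sub_zero]
  have i4 : ∀ w, fderiv ℝ F q w = 0 → ⟪A q v v - R q a, w⟫ = 0 := by
    intro w hw
    rw [inner_sub_left, hA.normal q hqN v v w hv hv (hTAK m c N U F hL q hqN hqU w hw),
      r2 a w hw, sub_zero]
  have i5 : ∀ z : E m, ⟪A q v v - R q a, z⟫ = 0 := by
    intro z
    have h : z = R q (fderiv ℝ F q z) + (z - R q (fderiv ℝ F q z)) := by abel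
    rw [h, inner_add_right, i3, i4, add_zero]
    rw [map_sub, r1, sub_self]
  have h := i5 (A q v v - R q a)
  exact sub_eq_zero.1 (inner_self_eq_zero.1 h)

theorem pf_SFS (hTAE : T_TAE) (hRIN : T_RIN) (hTAK : T_TAK) (hCUT : T_CUT) : T_SFS := by
  intro m k N A hN hA p hp
  obtain ⟨c, U, F, _, hpU, hL⟩ := hN.loc p hp
  obtain ⟨R, hR1, hR2⟩ := hRIN m c U F hL.isOpen hL.smooth hL.surj
  have hF1 : ContDiffOn ℝ ∞ (fderiv ℝ F) U := hL.smooth.fderiv_of_isOpen hL.isOpen (by simp)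
  have hF2 : ContDiffOn ℝ ∞ (fderiv ℝ (fderiv ℝ F)) U :=
    hF1.fderiv_of_isOpen hL.isOpen (by simp)
  have hB : ContDiffOn ℝ ∞ (fun q => (ContinuousLinearMap.compL ℝ (E m) (E c) (E m) (R q)).comp
      (fderiv ℝ (fderiv ℝ F) q)) U := by
    refine ContDiffOn.clm_comp ?_ hF2
    exact contDiffOn_const.clm_apply hR1
  obtain ⟨V, g, _, hV, hpV, hVU, hg, _, hgV, _, _⟩ := hCUT m (E m →L[ℝ] E m →L[ℝ] E m) U _
    hL.isOpen hB p hpU
  refine ⟨V, g, hV, hpV, hg, fun q hqN hqV v hv => ?_⟩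
  rw [hgV q hqV, sfs_eq hTAE hTAK hA hL hR2 q hqN (hVU hqV) v hv]
  rfl

end

end Pool.Agent.H66.RG
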