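import Pool.Agent.H70.RG.Targets

/-!
Board reg_modules (MP_2697e3_an), row EHCD: smooth functions and the classes of locally Hölder
functions.
-/

set_option autoImplicit false

namespace Pool.Agent.H66.RG

open MeasureTheory Metric Set Filter Topology Pool.Agent.H87.SN Pool.Agent.H70.RG
open scoped ContDiff

noncomputable section

/-- The linear map `w ↦ (v ↦ v_i w)`. -/
def smr' {n : ℕ} {F : Type} [NormedAddCommGroup F] [NormedSpace ℝ F] (i : Fin n) :
    F →L[ℝ] (E n →L[ℝ] F) :=
  ContinuousLinearMap.smulRightL ℝ (E n) F (EuclideanSpace.proj i : E n →L[ℝ] ℝ)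

theorem smr'_apply {n : ℕ} {F : Type} [NormedAddCommGroup F] [NormedSpace ℝ F] (i : Fin n)
    (w : F) (v : E n) : smr' i w v = v i • w := rfl

theorem sum_smr' {n : ℕ} {F : Type} [NormedAddCommGroup F] [NormedSpace ℝ F]
    (L : E n →L[ℝ] F) : L = ∑ i : Fin n, smr' i (L (bv i)) := by
  ext1 v
  rw [ContinuousLinearMap.sum_apply]
  have hv : v = ∑ i : Fin n, (v i) • (bv i : E n) := by
    ext j
    simp [bv, Pi.single_apply]
  conv_lhs => rw [hv]
  rw [map_sum]
  refine Finset.sum_congr rfl fun i _ => ?_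
  rw [map_smul, smr'_apply]

theorem hcd_fwd (h1 : T_HMO) (n : ℕ) (F : Type) [NormedAddCommGroup F] [NormedSpace ℝ F]
    (U : Set (E n)) (hU : IsOpen U) : ∀ (j : ℕ) (v : E n → F), HH j v U →
    ContDiffOn ℝ j v U := by
  intro j
  induction j with
  | zero =>
    intro v hv
    have h : ContDiffOn ℝ 0 v U := contDiffOn_zero.2 ((h1 n F 0 v U hU).2 hv)
    exact_mod_cast h
  | succ j ih =>
    intro v hv
    obtain ⟨ha, hb⟩ := hv
    have h : ContDiffOn ℝ ((j : WithTop ℕ∞) + 1) v U := by
      rw [contDiffOn_succ_iff_fderiv_of_isOpen hU]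
      refine ⟨fun x hx => (ha x hx).differentiableWithinAt, ?_, ?_⟩
      · intro h
        exact absurd h (by simp)
      · have e : (fderiv ℝ v) = fun x => ∑ i : Fin n, smr' i (fderiv ℝ v x (bv i)) := by
          funext x
          exact sum_smr' (fderiv ℝ v x)
        rw [e]
        refine ContDiffOn.sum fun i _ => ?_
        exact (ContinuousLinearMap.contDiff (smr' i)).comp_contDiffOn (ih _ (hb i))
    exact_mod_cast h

theorem hcd_bwd (n : ℕ) (F : Type) [NormedAddCommGroup F] [NormedSpace ℝ F]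
    (U : Set (E n)) (hU : IsOpen U) : ∀ (j : ℕ) (v : E n → F), ContDiffOn ℝ ∞ v U →
    HH j v U := by
  intro j
  induction j with
  | zero =>
    intro v hv x hx
    have h1 : ContDiffAt ℝ 1 v x :=
      ((hv x hx).contDiffAt (hU.mem_nhds hx)).of_le (by exact_mod_cast le_top)
    obtain ⟨K, t, ht, hL⟩ := h1.exists_lipschitzOnWith
    obtain ⟨r, hr, hb⟩ := Metric.mem_nhds_iff.1 (Filter.inter_mem ht (hU.mem_nhds hx))
    refine ⟨r, K, 1, hr, K.2, one_pos, le_refl 1, fun y hy => (hb hy).2, ?_⟩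
    intro y hy z hz
    rw [Real.rpow_one]
    exact hL.norm_sub_le (hb hy).1 (hb hz).1
  | succ j ih =>
    intro v hv
    refine ⟨fun x hx => ?_, fun i => ih _ ?_⟩
    · exact ((hv x hx).contDiffAt (hU.mem_nhds hx)).differentiableAt (by simp)
    · have h2 : ContDiffOn ℝ ∞ (fderiv ℝ v) U := hv.fderiv_of_isOpen hU (by simp)
      exact h2.clm_apply contDiffOn_const

/-- Smooth functions and the classes. -/
theorem pf_HCD (_h0 : T_HLO) (h1 : T_HMO) : T_HCD := by
  intro n F _ _ v U hU
  constructor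
  · intro h
    rw [contDiffOn_infty]
    intro j
    exact hcd_fwd h1 n F U hU j v (h j)
  · intro h j
    exact hcd_bwd n F U hU j v h

end

end Pool.Agent.H66.RG
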