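import Pool.Agent.H90.RG.Targets

/-!
Board reg_modules (MP_2697e3_an), row G_FNA: the Hessian bound in all dimensions.
-/

set_option autoImplicit false

namespace Pool.Agent.H66.RG

open MeasureTheory Metric Set Filter Topology Pool.Agent.H87.SN Pool.Agent.H90.RG

theorem pf_FNA (hD : T_DIM) (hF : T_FN3) : T_FNA := by
  intro m N A hN hA hE hAll
  have h3 : ∀ d : ℕ, 1 ≤ d → Q1 (d + 2) m N A := by
    intro d hd
    obtain ⟨ε, he, hr⟩ := hE d hd
    exact hF d m N A ε hN hA he hr (hAll d hd)
  have h2 : Q1 2 m N A := hD 2 m N A (by norm_num) hN hA.continuousOn (h3 1 le_rfl)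
  have h1 : Q1 1 m N A := hD 1 m N A le_rfl hN hA.continuousOn h2
  intro n hn
  match n, hn with
  | 1, _ => exact h1
  | 2, _ => exact h2
  | d + 3, _ => exact h3 (d + 1) (by omega)

end Pool.Agent.H66.RG
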