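import Pool.Agent.H90.RG.Targets2

/-!
Board reg_modules (MP_2697e3_an), row G_ROW: facts on the rows of the gradient.
-/

set_option autoImplicit false

namespace Pool.Agent.H66.RG

open MeasureTheory Metric Set Filter Topology Pool.Agent.H87.SN Pool.Agent.H90.RG
open Pool.Agent.H14.RG (IsClosedSubmanifold row)
open scoped ContDiff RealInnerProductSpace ENNReal

noncomputable section

theorem row_sum {n : ℕ} (v : E n) : v = ∑ i : Fin n, (v i) • (bv i : E n) := by
  ext j
  simp [bv, Pi.single_apply]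

theorem row_norm_bv {n : ℕ} (i : Fin n) : ‖(bv i : E n)‖ = 1 := by
  simp [bv]

theorem row_norm_le {n : ℕ} (v : E n) : ‖v‖ ≤ ∑ i : Fin n, |v i| := by
  conv_lhs => rw [row_sum v]
  refine (norm_sum_le _ _).trans (Finset.sum_le_sum fun i _ => ?_)
  rw [norm_smul, row_norm_bv, mul_one, Real.norm_eq_abs]

theorem row_abs_le {n : ℕ} (v : E n) (i : Fin n) : |v i| ≤ ‖v‖ := by
  have h := PiLp.norm_apply_le v i
  rwa [Real.norm_eq_abs] at h

theorem row_inner {n m : ℕ} (L : E n →L[ℝ] E m) (j : Fin m) (v : E n) :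
    ⟪row L j, v⟫ = (L v) j := by
  have h : L v = ∑ i : Fin n, (v i) • L (bv i) := by
    conv_lhs => rw [row_sum v]
    rw [map_sum]
    exact Finset.sum_congr rfl fun i _ => by rw [map_smul]
  rw [h, PiLp.inner_apply]
  have h2 : (∑ i : Fin n, (v i) • L (bv i)) j = ∑ i : Fin n, (v i) * (L (bv i)) j := by
    simp
  rw [h2]
  refine Finset.sum_congr rfl fun i _ => ?_
  show v i * _ = _
  rfl

theorem row_le {n m : ℕ} (L : E n →L[ℝ] E m) (j : Fin m) : ‖row L j‖ ≤ n * ‖L‖ := by
  refine (row_norm_le _).trans ?_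
  have h : ∀ i : Fin n, |row L j i| ≤ ‖L‖ := by
    intro i
    refine (row_abs_le (L (bv i)) j).trans ?_
    have := L.le_opNorm (bv i)
    rwa [row_norm_bv, mul_one] at this
  refine (Finset.sum_le_sum fun i _ => h i).trans ?_
  rw [Finset.sum_const, Finset.card_univ, Fintype.card_fin, nsmul_eq_mul]

theorem row_cont {n m : ℕ} (j : Fin m) : Continuous (fun L : E n →L[ℝ] E m => row L j) := by
  refine (PiLp.continuous_toLp 2 _).comp (continuous_pi fun α => ?_)
  have h1 : Continuous fun L : E n →L[ℝ] E m => L (bv α) :=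
    (ContinuousLinearMap.apply ℝ (E m) (bv α : E n)).continuous
  exact (EuclideanSpace.proj j : E m →L[ℝ] ℝ).continuous.comp h1

theorem pf_ROW : T_ROW := by
  intro n m
  refine ⟨fun L => ⟨?_, ?_, fun j v => row_inner L j v, fun j i => rfl, fun j => row_le L j⟩,
    fun j => row_cont j, fun G S j hG => ?_⟩
  · unfold nsq
    simp only [EuclideanSpace.real_norm_sq_eq]
    rw [Finset.sum_comm]
    rfl
  · refine L.opNorm_le_bound (Finset.sum_nonneg fun j _ => norm_nonneg _) fun v => ?_
    refine (row_norm_le _).trans ?_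
    rw [Finset.sum_mul]
    refine Finset.sum_le_sum fun j _ => ?_
    rw [← row_inner]
    exact abs_real_inner_le_norm _ _
  · refine MemLp.of_le_mul (c := n) hG ((row_cont j).comp_aestronglyMeasurable hG.1) ?_
    exact Eventually.of_forall fun x => row_le (G x) j

end

end Pool.Agent.H66.RG
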